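import Pool.Agent.V5helper67.CI.Stm

open Finset

namespace Pool.Agent.V5helper61.CI

/-- the choice of the parameters, with the logarithm replaced by a large number `x` -/
theorem par_core (m x c A R : ℝ) (hx : 10 ^ 14 ≤ x) (hm : 1 ≤ m) (hc : 0 < c)
    (hc1 : x ^ 6 * m ≤ c ^ 2) (hc2 : c ^ 5 ≤ m ^ 4) (hA : 0 < A) (hA3 : A ^ 3 * x ^ 5 * m = c ^ 2)
    (hR : 0 < R) (hR3 : R ^ 3 * m = c ^ 2) :
    ∃ L ℓ n N B : ℕ, 10 ≤ n ∧ 22 ≤ ℓ ∧ 0 < L ∧ ((ℓ * n ^ 2 : ℕ) : ℝ) ≤ B ∧ 1 ≤ N ∧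
      (N : ℝ) ≤ B ∧ 1 ≤ B ∧ ((L * (6 * B) : ℕ) : ℝ) ≤ m ∧ 5 * x + 2 ≤ ℓ ∧
      32 * (ℓ : ℝ) ^ 2 * m ^ 2 ≤ n * N * B ∧
      ((2 * (N + n) + 3 * (ℓ * n) + 1 : ℕ) : ℝ) ≤ c ∧
      1 / 10 ^ 7 * (m ^ 2 * R / x ^ 3) ≤ L * m ^ 2 / (42 * ℓ) := by
  have hx0 : 0 < x := lt_of_lt_of_le (by norm_num) hx
  have hx1 : 1 ≤ x := le_trans (by norm_num) hx
  have hm0 : 0 < m := by linarith
  have hx5 : 0 < x ^ 5 := by positivity
  have hx5' : 1 ≤ x ^ 5 := one_le_pow₀ hx1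
  -- A ≥ 22000
  have hAx : x ≤ A ^ 3 := by
    have h1 : x * (x ^ 5 * m) ≤ A ^ 3 * (x ^ 5 * m) := by
      calc x * (x ^ 5 * m) = x ^ 6 * m := by ring
        _ ≤ c ^ 2 := hc1
        _ = A ^ 3 * (x ^ 5 * m) := by rw [← hA3]; ring
    exact le_of_mul_le_mul_right h1 (by positivity)
  have hA1 : 22000 ≤ A := by
    refine le_of_pow_le_pow_left₀ (n := 3) (by norm_num) hA.le ?_
    refine le_trans ?_ hAx
    refine le_trans (by norm_num) hx
  -- c ≥ 8, c ≤ m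
  have hc8 : 8 ≤ c := by
    refine le_of_pow_le_pow_left₀ (n := 2) (by norm_num) hc.le ?_
    refine le_trans ?_ hc1
    have h1 : (8 : ℝ) ^ 2 ≤ x := le_trans (by norm_num) hx
    have h2 : x ≤ x ^ 6 := le_self_pow₀ hx1 (by norm_num)
    have h3 : x ^ 6 ≤ x ^ 6 * m := le_mul_of_one_le_right (by positivity) hm
    linarith
  have hcm : c ≤ m := by
    refine le_of_pow_le_pow_left₀ (n := 5) (by norm_num) hm0.le ?_
    exact hc2.trans (pow_le_pow_right₀ hm (by norm_num))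
  -- c A ≤ m
  have hcA : c * A ≤ m := by
    refine le_of_pow_le_pow_left₀ (n := 3) (by norm_num) hm0.le ?_
    have h1 : (c * A) ^ 3 * m ≤ m ^ 3 * m := by
      calc (c * A) ^ 3 * m ≤ (c * A) ^ 3 * m * x ^ 5 :=
            le_mul_of_one_le_right (by positivity) hx5'
        _ = c ^ 3 * (A ^ 3 * x ^ 5 * m) := by ring
        _ = c ^ 5 := by rw [hA3]; ring
        _ ≤ m ^ 4 := hc2
        _ = m ^ 3 * m := by ring
    exact le_of_mul_le_mul_right h1 hm0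
  -- L
  obtain ⟨L, hL1, hL2, hLpos⟩ : ∃ L : ℕ, (L : ℝ) ≤ A / 11000 ∧ A / 22000 ≤ L ∧ 0 < L := by
    refine ⟨⌊A / 11000⌋₊, Nat.floor_le (by positivity), ?_, ?_⟩
    · have := Nat.lt_floor_add_one (A / 11000)
      linarith
    · exact Nat.floor_pos.mpr (by linarith)
  have hLr : (1 : ℝ) ≤ L := by exact_mod_cast hLpos
  have hL0 : (0 : ℝ) < L := by linarith
  have hcL : 3 * c * L ≤ m := by
    have h1 : c * L ≤ c * (A / 11000) := mul_le_mul_of_nonneg_left hL1 hc.le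
    have h2 : 0 < c * A := by positivity
    linarith
  have hL24 : 24 * (L : ℝ) ≤ m := by
    have h1 : 8 * (L : ℝ) ≤ c * L := mul_le_mul_of_nonneg_right hc8 hL0.le
    linarith
  -- B
  obtain ⟨B, hB1, hB2⟩ : ∃ B : ℕ, (B : ℝ) * (6 * L) ≤ m ∧ m ≤ 12 * L * B := by
    refine ⟨⌊m / (6 * L)⌋₊, ?_, ?_⟩
    · have h1 : (⌊m / (6 * L)⌋₊ : ℝ) ≤ m / (6 * L) := Nat.floor_le (by positivity)
      rwa [le_div_iff₀ (by positivity)] at h1
    · have h1 := Nat.lt_floor_add_one (m / (6 * L))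
      rw [div_lt_iff₀ (by positivity)] at h1
      linarith
  have hBpos : (0 : ℝ) < B := by
    by_contra h
    have h0 : (B : ℝ) = 0 := le_antisymm (not_lt.mp h) (Nat.cast_nonneg _)
    rw [h0] at hB2
    linarith
  have hB1' : 1 ≤ B := by
    have : 0 < B := by exact_mod_cast hBpos
    omega
  -- N
  obtain ⟨N, hN1, hN2⟩ : ∃ N : ℕ, (N : ℝ) ≤ c / 4 ∧ c / 8 ≤ N := by
    refine ⟨⌊c / 4⌋₊, Nat.floor_le (by positivity), ?_⟩
    have := Nat.lt_floor_add_one (c / 4)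
    linarith
  have hNpos : (0 : ℝ) < N := by linarith
  have hN1' : 1 ≤ N := by
    have : 0 < N := by exact_mod_cast hNpos
    omega
  -- ℓ
  obtain ⟨ℓ, hl1, hl2⟩ : ∃ ℓ : ℕ, 5 * x + 2 ≤ ℓ ∧ (ℓ : ℝ) ≤ 6 * x := by
    refine ⟨⌈5 * x + 2⌉₊, Nat.le_ceil _, ?_⟩
    have := Nat.ceil_lt_add_one (a := 5 * x + 2) (by positivity)
    have h3 : (3 : ℝ) ≤ x := le_trans (by norm_num) hx
    linarith
  have hlr : (22 : ℝ) ≤ ℓ := by
    have h3 : (4 : ℝ) ≤ x := le_trans (by norm_num) hx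
    linarith
  have hl0 : (0 : ℝ) < ℓ := by linarith
  -- n
  obtain ⟨n, hn1, hn2⟩ : ∃ n : ℕ, 32 * (ℓ : ℝ) ^ 2 * m ^ 2 ≤ n * (N * B) ∧
      (n : ℝ) * (N * B) ≤ 32 * (ℓ : ℝ) ^ 2 * m ^ 2 + N * B := by
    refine ⟨⌈32 * (ℓ : ℝ) ^ 2 * m ^ 2 / (N * B)⌉₊, ?_, ?_⟩
    · have h1 := Nat.le_ceil (32 * (ℓ : ℝ) ^ 2 * m ^ 2 / (N * B))
      rwa [div_le_iff₀ (by positivity)] at h1
    · have h1 := (Nat.ceil_lt_add_one (a := 32 * (ℓ : ℝ) ^ 2 * m ^ 2 / (N * B))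
        (by positivity)).le
      have h2 : (⌈32 * (ℓ : ℝ) ^ 2 * m ^ 2 / (N * B)⌉₊ : ℝ) * (N * B) ≤
          (32 * (ℓ : ℝ) ^ 2 * m ^ 2 / (N * B) + 1) * (N * B) :=
        mul_le_mul_of_nonneg_right h1 (by positivity)
      rw [add_mul, one_mul, div_mul_cancel₀ _ (by positivity)] at h2
      exact h2
  have hn0 : (0 : ℝ) < n := by
    by_contra h
    have h0 : (n : ℝ) = 0 := le_antisymm (not_lt.mp h) (Nat.cast_nonneg _)
    rw [h0, zero_mul] at hn1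
    have : (0 : ℝ) < 32 * (ℓ : ℝ) ^ 2 * m ^ 2 := by positivity
    linarith
  -- N B ≥ c m / (96 L)
  have hNB : c * m ≤ 96 * L * (N * B) := by
    have h1 : c * m ≤ (8 * N) * (12 * L * B) :=
      mul_le_mul (by linarith) hB2 hm0.le (by positivity)
    linarith
  have hNB2 : (N : ℝ) * B * 24 ≤ c * m := by
    have h1 : (B : ℝ) * 6 ≤ m := by
      have h3 : (B : ℝ) * 6 * 1 ≤ B * 6 * L := mul_le_mul_of_nonneg_left hLr (by positivity)
      linarith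
    have h2 : (N : ℝ) * (B * 6) ≤ c / 4 * m := mul_le_mul hN1 h1 (by positivity) (by positivity)
    linarith
  -- n c ≤ 120000 x² m L
  have hnc : (n : ℝ) * c ≤ 120000 * (x ^ 2 * m * L) := by
    have h1 : (n : ℝ) * (c * m) ≤ n * (96 * L * (N * B)) := mul_le_mul_of_nonneg_left hNB hn0.le
    have h2 : (n : ℝ) * (96 * L * (N * B)) ≤ 96 * L * (32 * (ℓ : ℝ) ^ 2 * m ^ 2 + N * B) := by
      have := mul_le_mul_of_nonneg_left hn2 (show (0 : ℝ) ≤ 96 * L by positivity)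
      linarith
    have h3 : (ℓ : ℝ) ^ 2 ≤ 36 * x ^ 2 := by
      have := pow_le_pow_left₀ hl0.le hl2 2
      calc (ℓ : ℝ) ^ 2 ≤ (6 * x) ^ 2 := this
        _ = 36 * x ^ 2 := by ring
    have h4 : 96 * (L : ℝ) * (32 * (ℓ : ℝ) ^ 2 * m ^ 2) ≤ 96 * L * (32 * (36 * x ^ 2) * m ^ 2) := by
      gcongr
    have h5 : 96 * (L : ℝ) * (N * B) ≤ 4 * (L * m ^ 2) := by
      have h6 : (N : ℝ) * B * 24 ≤ m * m := hNB2.trans (mul_le_mul_of_nonneg_right hcm hm0.le)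
      have := mul_le_mul_of_nonneg_left h6 (show (0 : ℝ) ≤ 4 * L by positivity)
      linarith
    have h7 : (L : ℝ) * m ^ 2 ≤ x ^ 2 * (L * m ^ 2) :=
      le_mul_of_one_le_left (by positivity) (one_le_pow₀ hx1)
    have h8 : (n : ℝ) * c * m ≤ 120000 * (x ^ 2 * m * L) * m := by
      calc (n : ℝ) * c * m = n * (c * m) := by ring
        _ ≤ 96 * L * (32 * (ℓ : ℝ) ^ 2 * m ^ 2 + N * B) := h1.trans h2
        _ = 96 * L * (32 * (ℓ : ℝ) ^ 2 * m ^ 2) + 96 * L * (N * B) := by ring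
        _ ≤ 96 * L * (32 * (36 * x ^ 2) * m ^ 2) + 4 * (L * m ^ 2) := add_le_add h4 h5
        _ ≤ 96 * L * (32 * (36 * x ^ 2) * m ^ 2) + 4 * (x ^ 2 * (L * m ^ 2)) := by linarith
        _ = 110596 * (x ^ 2 * m * L) * m := by ring
        _ ≤ 120000 * (x ^ 2 * m * L) * m := by
          gcongr
          norm_num
    exact le_of_mul_le_mul_right h8 hm0
  -- L³
  have hL3 : 1331 * 10 ^ 9 * (L : ℝ) ^ 3 ≤ A ^ 3 := by
    have h1 : 11000 * (L : ℝ) ≤ A := by linarith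
    have := pow_le_pow_left₀ (by positivity) h1 3
    calc 1331 * 10 ^ 9 * (L : ℝ) ^ 3 = (11000 * (L : ℝ)) ^ 3 := by ring
      _ ≤ A ^ 3 := this
  refine ⟨L, ℓ, n, N, B, ?_, ?_, hLpos, ?_, hN1', ?_, hB1', ?_, hl1, ?_, ?_, ?_⟩
  · -- 10 ≤ n
    have h1 : (10 : ℝ) ≤ n := by
      have h2 : (n : ℝ) * (N * B) * 24 ≤ n * (m * m) := by
        have := mul_le_mul_of_nonneg_left
          (hNB2.trans (mul_le_mul_of_nonneg_right hcm hm0.le)) hn0.le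
        linarith
      have h3 : 32 * (ℓ : ℝ) ^ 2 * m ^ 2 * 24 ≤ n * (m * m) := by linarith
      have h4 : (10 : ℝ) * (m * m) ≤ 32 * (ℓ : ℝ) ^ 2 * m ^ 2 * 24 := by
        have h5 : (1 : ℝ) ≤ (ℓ : ℝ) ^ 2 := one_le_pow₀ (by linarith)
        have h6 : (m * m) * 1 ≤ (m * m) * (ℓ : ℝ) ^ 2 :=
          mul_le_mul_of_nonneg_left h5 (by positivity)
        have h7 : 0 < m * m := by positivity
        calc (10 : ℝ) * (m * m) ≤ 768 * ((m * m) * 1) := by linarith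
          _ ≤ 768 * ((m * m) * (ℓ : ℝ) ^ 2) := by linarith
          _ = 32 * (ℓ : ℝ) ^ 2 * m ^ 2 * 24 := by ring
      exact le_of_mul_le_mul_right (h4.trans h3) (by positivity)
    exact_mod_cast h1
  · exact_mod_cast hlr
  · -- ℓ n² ≤ B
    push_cast
    have h1 : ((n : ℝ) * c) ^ 2 ≤ (120000 * (x ^ 2 * m * L)) ^ 2 :=
      pow_le_pow_left₀ (by positivity) hnc 2
    have h2 : (ℓ : ℝ) * ((n : ℝ) * c) ^ 2 ≤ (6 * x) * (120000 * (x ^ 2 * m * L)) ^ 2 :=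
      mul_le_mul hl2 h1 (by positivity) (by positivity)
    have h3 : (ℓ : ℝ) * (n : ℝ) ^ 2 * (12 * L) * c ^ 2 ≤ m * c ^ 2 := by
      calc (ℓ : ℝ) * (n : ℝ) ^ 2 * (12 * L) * c ^ 2 = 12 * L * (ℓ * ((n : ℝ) * c) ^ 2) := by ring
        _ ≤ 12 * L * ((6 * x) * (120000 * (x ^ 2 * m * L)) ^ 2) :=
          mul_le_mul_of_nonneg_left h2 (by positivity)
        _ = (10368 * 10 ^ 8 * (L : ℝ) ^ 3) * (x ^ 5 * m * m) := by ring
        _ ≤ A ^ 3 * (x ^ 5 * m * m) := by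
          apply mul_le_mul_of_nonneg_right _ (by positivity)
          have : (0 : ℝ) < (L : ℝ) ^ 3 := by positivity
          linarith
        _ = m * (A ^ 3 * x ^ 5 * m) := by ring
        _ = m * c ^ 2 := by rw [hA3]
    have h4 : (ℓ : ℝ) * (n : ℝ) ^ 2 * (12 * L) ≤ m := le_of_mul_le_mul_right h3 (by positivity)
    have h5 : (ℓ : ℝ) * (n : ℝ) ^ 2 * (12 * L) ≤ B * (12 * L) := by linarith
    exact le_of_mul_le_mul_right h5 (by positivity)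
  · -- N ≤ B
    have h1 : (N : ℝ) * (12 * L) ≤ B * (12 * L) := by
      have : (N : ℝ) * (12 * L) ≤ c / 4 * (12 * L) := mul_le_mul_of_nonneg_right hN1 (by positivity)
      linarith
    exact le_of_mul_le_mul_right h1 (by positivity)
  · push_cast
    linarith
  · linarith
  · -- circumference
    push_cast
    have h1 : (ℓ : ℝ) * n ≤ 6 * x * n := mul_le_mul_of_nonneg_right hl2 hn0.le
    have h2 : 2 * (n : ℝ) + 1 ≤ 2 * x * n := by
      have hn1'' : (1 : ℝ) ≤ n := by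
        have : 0 < n := by exact_mod_cast hn0
        exact_mod_cast this
      have h3 : (2 : ℝ) ≤ x := le_trans (by norm_num) hx
      have h4 : 2 * (n : ℝ) ≤ x * n := mul_le_mul_of_nonneg_right h3 hn0.le
      linarith
    have h3 : 40 * x * (n : ℝ) * c ≤ c * c := by
      have h4 : 40 * x * (n : ℝ) * c ≤ 40 * x * (120000 * (x ^ 2 * m * L)) := by
        have := mul_le_mul_of_nonneg_left hnc (show (0 : ℝ) ≤ 40 * x by positivity)
        linarith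
      have h5 : 4800000 * (L : ℝ) ≤ A ^ 3 := by
        have : 4800000 * (L : ℝ) ≤ 22000 ^ 2 * A := by linarith
        have h6 : (22000 : ℝ) ^ 2 ≤ A ^ 2 := pow_le_pow_left₀ (by norm_num) hA1 2
        have h7 : (22000 : ℝ) ^ 2 * A ≤ A ^ 2 * A := mul_le_mul_of_nonneg_right h6 hA.le
        calc 4800000 * (L : ℝ) ≤ 22000 ^ 2 * A := this
          _ ≤ A ^ 2 * A := h7
          _ = A ^ 3 := by ring
      calc 40 * x * (n : ℝ) * c ≤ 40 * x * (120000 * (x ^ 2 * m * L)) := h4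
        _ = 4800000 * (L : ℝ) * (x ^ 3 * m) := by ring
        _ ≤ A ^ 3 * (x ^ 3 * m) := mul_le_mul_of_nonneg_right h5 (by positivity)
        _ ≤ A ^ 3 * (x ^ 5 * m) := by
          gcongr
          norm_num
        _ = A ^ 3 * x ^ 5 * m := by ring
        _ = c * c := by rw [hA3]; ring
    have h4 : 40 * x * (n : ℝ) ≤ c := le_of_mul_le_mul_right h3 hc
    linarith
  · -- the last inequality
    have hRA : R ≤ A * x ^ 2 := by
      refine le_of_pow_le_pow_left₀ (n := 3) (by norm_num) (by positivity) ?_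
      have h1 : R ^ 3 * m = A ^ 3 * x ^ 5 * m := by rw [hR3, hA3]
      have h2 : R ^ 3 = A ^ 3 * x ^ 5 := mul_right_cancel₀ hm0.ne' h1
      rw [h2]
      calc A ^ 3 * x ^ 5 ≤ A ^ 3 * x ^ 6 := by
            gcongr
            norm_num
        _ = (A * x ^ 2) ^ 3 := by ring
    have h1 : 1 / 10 ^ 7 * (m ^ 2 * R / x ^ 3) ≤ 1 / 10 ^ 7 * (m ^ 2 * (A * x ^ 2) / x ^ 3) := by
      gcongr
    have h2 : 1 / 10 ^ 7 * (m ^ 2 * (A * x ^ 2) / x ^ 3) = m ^ 2 * A / (10 ^ 7 * x) := by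
      field_simp
    have h3 : m ^ 2 * A / (10 ^ 7 * x) ≤ (A / 22000) * m ^ 2 / (42 * (6 * x)) := by
      rw [div_le_div_iff₀ (by positivity) (by positivity)]
      have h5 : 0 < m ^ 2 * A * x := by positivity
      have h6 : m ^ 2 * A * (42 * (6 * x)) = 252 * (m ^ 2 * A * x) := by ring
      have h7 : A / 22000 * m ^ 2 * (10 ^ 7 * x) = (10 ^ 7 / 22000) * (m ^ 2 * A * x) := by ring
      rw [h6, h7]
      apply mul_le_mul_of_nonneg_right _ h5.le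
      norm_num
    have h4 : (A / 22000) * m ^ 2 / (42 * (6 * x)) ≤ L * m ^ 2 / (42 * ℓ) := by
      gcongr
    calc _ ≤ _ := h1
      _ = _ := h2
      _ ≤ _ := h3
      _ ≤ _ := h4

open Pool.Agent.V5helper67.CI in
theorem t_PAR : S_PAR := by
  have hlim : Filter.Tendsto (fun m : ℕ => Real.log (m : ℝ)) Filter.atTop Filter.atTop :=
    Real.tendsto_log_atTop.comp tendsto_natCast_atTop_atTop
  obtain ⟨m0, h0⟩ := Filter.eventually_atTop.mp (hlim.eventually_ge_atTop ((10 : ℝ) ^ 14))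
  refine ⟨m0 + 1, fun m hm c hc1 hc2 => ?_⟩
  have hx : (10 : ℝ) ^ 14 ≤ Real.log m := h0 m (by omega)
  have hm1 : (1 : ℝ) ≤ m := by
    have : 1 ≤ m := by omega
    exact_mod_cast this
  have hm0 : (0 : ℝ) < m := by linarith
  have hx0 : 0 < Real.log m := lt_of_lt_of_le (by norm_num) hx
  have hs : 0 < Real.sqrt m := Real.sqrt_pos.mpr hm0
  have hc : 0 < c := lt_of_lt_of_le (by positivity) hc1
  have hcc1 : Real.log m ^ 6 * m ≤ c ^ 2 := by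
    have h1 := pow_le_pow_left₀ (by positivity) hc1 2
    calc Real.log m ^ 6 * m = Real.log m ^ 6 * (Real.sqrt m) ^ 2 := by rw [Real.sq_sqrt hm0.le]
      _ = (Real.sqrt m * Real.log m ^ 3) ^ 2 := by ring
      _ ≤ c ^ 2 := h1
  have hcc2 : c ^ 5 ≤ (m : ℝ) ^ 4 := by
    have h1 := pow_le_pow_left₀ hc.le hc2 5
    refine h1.trans (le_of_eq ?_)
    rw [← Real.rpow_natCast, ← Real.rpow_mul hm0.le, ← Real.rpow_natCast]
    norm_num
  have hcube : ∀ t : ℝ, 0 < t → 0 < t ^ (1 / 3 : ℝ) ∧ (t ^ (1 / 3 : ℝ)) ^ 3 = t := by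
    intro t ht
    refine ⟨Real.rpow_pos_of_pos ht _, ?_⟩
    rw [← Real.rpow_natCast, ← Real.rpow_mul ht.le]
    norm_num
  obtain ⟨hA, hA3⟩ := hcube (c ^ 2 / (m * Real.log m ^ 5)) (by positivity)
  obtain ⟨hR, hR3⟩ := hcube (c ^ 2 / m) (by positivity)
  obtain ⟨L, ℓ, n, N, B, h1, h2, h3, h4, h5, h6, h7, h8, h9, h10, h11, h12⟩ :=
    par_core (m : ℝ) (Real.log m) c _ _ hx hm1 hc hcc1 hcc2 hA
      (by rw [hA3]; field_simp) hR (by rw [hR3]; field_simp)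
  refine ⟨L, ℓ, n, N, B, B, h1, h2, h3, ?_, h5, ?_, h7, le_rfl, ?_, h9, h10, h11, h12⟩
  · exact_mod_cast h4
  · exact_mod_cast h6
  · exact_mod_cast h8

end Pool.Agent.V5helper61.CI
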